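import Mathlib

open Finset Matrix Filter Topology

namespace Pool.Agent.Results.MP_313e16_pr.NotMonotone

/-- Configurations `x ∈ Σ = {0,1}^N` of the `N` players, indexed cyclically by `Fin N`
(the neighbours of player `i` are `i - 1` and `i + 1` modulo `N`). -/
abbrev Config (N : ℕ) : Type := Fin N → Fin 2

/-- `m_i(x) = 2 x_{i-1} + x_{i+1}`, an element of `{0,1,2,3}`. -/
def nb {N : ℕ} [NeZero N] (x : Config N) (i : Fin N) : Fin 4 :=
  ⟨2 * (x (i - 1)).val + (x (i + 1)).val, by omega⟩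

/-- `x^i`: the configuration `x` with coordinate `i` flipped. -/
def flipAt {N : ℕ} (x : Config N) (i : Fin N) : Config N := Function.update x i (1 - x i)

/-- The probability that player `i`, once selected in configuration `x`, changes status:
`p_{m_i(x)}` if `x_i = 0` and `q_{m_i(x)} = 1 - p_{m_i(x)}` if `x_i = 1`. -/
noncomputable def flipProb {N : ℕ} [NeZero N] (p : Fin 4 → ℝ) (x : Config N) (i : Fin N) : ℝ :=
  if x i = 0 then p (nb x i) else 1 - p (nb x i)

/-- The one-step transition matrix: `P(x, x^i) = N⁻¹ p_{m_i(x)}` or `N⁻¹ q_{m_i(x)}`, with the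
remaining mass on the diagonal. -/
noncomputable def P (N : ℕ) [NeZero N] (p : Fin 4 → ℝ) : Matrix (Config N) (Config N) ℝ :=
  fun x y => if y = x then 1 - ∑ i, (N : ℝ)⁻¹ * flipProb p x i
    else ∑ i, if y = flipAt x i then (N : ℝ)⁻¹ * flipProb p x i else 0

/-- Probability vectors on the configurations. -/
def IsDist {N : ℕ} (ν : Config N → ℝ) : Prop := (∀ x, 0 ≤ ν x) ∧ ∑ x, ν x = 1

/-- Stationary distributions of the chain. -/
def IsStationary (N : ℕ) [NeZero N] (p : Fin 4 → ℝ) (π : Config N → ℝ) : Prop :=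
  IsDist π ∧ π ᵥ* P N p = π

/-- The chain is ergodic: it has a unique stationary distribution `π` and converges to `π`
from every initial distribution. -/
def IsErgodic (N : ℕ) [NeZero N] (p : Fin 4 → ℝ) : Prop :=
  ∃ π : Config N → ℝ, IsStationary N p π ∧ (∀ π', IsStationary N p π' → π' = π) ∧
    ∀ ν : Config N → ℝ, IsDist ν → Tendsto (fun n : ℕ => ν ᵥ* (P N p) ^ n) atTop (𝓝 π)

/-- The mean profit per turn under the distribution `π`:
`N⁻¹ ∑_x π(x) ∑_i (p_{m_i(x)} - q_{m_i(x)})`. -/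
noncomputable def profit (N : ℕ) [NeZero N] (p : Fin 4 → ℝ) (π : Config N → ℝ) : ℝ :=
  (N : ℝ)⁻¹ * ∑ x, π x * ∑ i, (p (nb x i) - (1 - p (nb x i)))

open Classical in
/-- `μ^N(p)`: the mean profit under the stationary distribution (which is unique when the chain
is ergodic; the value is `0` if there is none). -/
noncomputable def mu (N : ℕ) [NeZero N] (p : Fin 4 → ℝ) : ℝ :=
  if h : ∃ π, IsStationary N p π then profit N p h.choose else 0

/-! ### Basic facts about the transition matrix -/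

section basics

variable {N : ℕ} [NeZero N] {p : Fin 4 → ℝ}

omit [NeZero N] in
lemma flipAt_apply_self (x : Config N) (i : Fin N) : flipAt x i i = 1 - x i := by
  simp [flipAt]

lemma one_sub_ne (a : Fin 2) : 1 - a ≠ a := by
  revert a; decide

omit [NeZero N] in
lemma flipAt_ne (x : Config N) (i : Fin N) : flipAt x i ≠ x := by
  intro h
  have := congrFun h i
  rw [flipAt_apply_self] at this
  exact one_sub_ne _ this

omit [NeZero N] in
lemma flipAt_flipAt (x : Config N) (i : Fin N) : flipAt (flipAt x i) i = x := by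
  funext j
  unfold flipAt
  by_cases h : j = i
  · subst h
    simp
  · simp [Function.update_of_ne h]

omit [NeZero N] in
lemma eq_flipAt_iff (x y : Config N) (i : Fin N) : y = flipAt x i ↔ x = flipAt y i := by
  constructor
  · rintro rfl; rw [flipAt_flipAt]
  · rintro rfl; rw [flipAt_flipAt]

lemma P_eq (x y : Config N) :
    P N p x y = (if y = x then 1 - ∑ i, (N : ℝ)⁻¹ * flipProb p x i else 0) +
      ∑ i, if y = flipAt x i then (N : ℝ)⁻¹ * flipProb p x i else 0 := by
  unfold P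
  by_cases h : y = x
  · subst h
    have : ∑ i, (if y = flipAt y i then (N : ℝ)⁻¹ * flipProb p y i else 0) = 0 := by
      apply Finset.sum_eq_zero
      intro i _
      rw [if_neg (fun h => flipAt_ne y i h.symm)]
    simp [this]
  · simp [h]

lemma N_pos : (0 : ℝ) < (N : ℝ) := by
  exact_mod_cast Nat.pos_of_ne_zero (NeZero.ne N)

lemma flipProb_pos (hp : ∀ m, p m ∈ Set.Ioo (0 : ℝ) 1) (x : Config N) (i : Fin N) :
    0 < flipProb p x i := by
  unfold flipProb
  split_ifs
  · exact (hp _).1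
  · have := (hp (nb x i)).2
    linarith

lemma flipProb_lt_one (hp : ∀ m, p m ∈ Set.Ioo (0 : ℝ) 1) (x : Config N) (i : Fin N) :
    flipProb p x i < 1 := by
  unfold flipProb
  split_ifs
  · exact (hp _).2
  · have := (hp (nb x i)).1
    linarith

lemma stay_pos (hp : ∀ m, p m ∈ Set.Ioo (0 : ℝ) 1) (x : Config N) :
    0 < 1 - ∑ i, (N : ℝ)⁻¹ * flipProb p x i := by
  have h1 : ∑ i : Fin N, (N : ℝ)⁻¹ * flipProb p x i < ∑ _i : Fin N, (N : ℝ)⁻¹ * 1 := by
    apply Finset.sum_lt_sum_of_nonempty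
    · exact ⟨0, Finset.mem_univ _⟩
    · intro i _
      exact mul_lt_mul_of_pos_left (flipProb_lt_one hp x i) (inv_pos.mpr N_pos)
  have h2 : ∑ _i : Fin N, (N : ℝ)⁻¹ * 1 = 1 := by
    simp
  linarith

lemma P_self_pos (hp : ∀ m, p m ∈ Set.Ioo (0 : ℝ) 1) (x : Config N) : 0 < P N p x x := by
  unfold P
  simp only [if_true]
  exact stay_pos hp x

lemma P_nonneg (hp : ∀ m, p m ∈ Set.Ioo (0 : ℝ) 1) (x y : Config N) : 0 ≤ P N p x y := by
  unfold P
  split_ifs with h
  · exact (stay_pos hp x).le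
  · apply Finset.sum_nonneg
    intro i _
    split_ifs
    · exact mul_nonneg (inv_nonneg.mpr N_pos.le) (flipProb_pos hp x i).le
    · exact le_rfl

lemma P_flip_pos (hp : ∀ m, p m ∈ Set.Ioo (0 : ℝ) 1) (x : Config N) (i : Fin N) :
    0 < P N p x (flipAt x i) := by
  unfold P
  rw [if_neg (flipAt_ne x i)]
  apply Finset.sum_pos'
  · intro j _
    split_ifs
    · exact mul_nonneg (inv_nonneg.mpr N_pos.le) (flipProb_pos hp x j).le
    · exact le_rfl
  · refine ⟨i, Finset.mem_univ _, ?_⟩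
    simp only [if_true]
    exact mul_pos (inv_pos.mpr N_pos) (flipProb_pos hp x i)

lemma P_row_sum (x : Config N) : ∑ y, P N p x y = 1 := by
  simp_rw [P_eq]
  rw [Finset.sum_add_distrib, Finset.sum_comm]
  simp

/-- Balance of the flows implies stationarity. -/
lemma vecMul_eq_of_balance (π : Config N → ℝ)
    (h : ∀ y, π y * ∑ i, flipProb p y i = ∑ i, π (flipAt y i) * flipProb p (flipAt y i) i) :
    π ᵥ* P N p = π := by
  funext y
  have h1 : (π ᵥ* P N p) y = ∑ x, π x * P N p x y := by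
    simp [Matrix.vecMul, dotProduct]
  rw [h1]
  simp_rw [P_eq, mul_add, Finset.mul_sum]
  rw [Finset.sum_add_distrib]
  have h2 : ∑ x, π x * (if y = x then 1 - ∑ i, (N : ℝ)⁻¹ * flipProb p x i else 0) =
      π y * (1 - ∑ i, (N : ℝ)⁻¹ * flipProb p y i) := by
    simp
  have h3 : ∑ x, ∑ i, π x * (if y = flipAt x i then (N : ℝ)⁻¹ * flipProb p x i else 0) =
      ∑ i, π (flipAt y i) * ((N : ℝ)⁻¹ * flipProb p (flipAt y i) i) := by
    rw [Finset.sum_comm]
    apply Finset.sum_congr rfl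
    intro i _
    rw [Finset.sum_eq_single (flipAt y i)]
    · rw [flipAt_flipAt]
      simp
    · intro b _ hb
      rw [if_neg (fun h => hb ((eq_flipAt_iff b y i).mp h)), mul_zero]
    · intro h
      exact absurd (Finset.mem_univ _) h
  rw [h2, h3]
  have h4 := h y
  have h5 : ∑ i, π (flipAt y i) * ((N : ℝ)⁻¹ * flipProb p (flipAt y i) i) =
      (N : ℝ)⁻¹ * ∑ i, π (flipAt y i) * flipProb p (flipAt y i) i := by
    rw [Finset.mul_sum]
    apply Finset.sum_congr rfl
    intro i _
    ring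
  rw [h5, ← h4, ← Finset.mul_sum]
  ring

end basics

/-! ### Ergodicity for interior parameters -/

section ergodic

variable {N : ℕ} [NeZero N] {p : Fin 4 → ℝ}

/-- The hybrid of `x` and `y` that agrees with `y` on the first `k` coordinates. -/
def hyb (x y : Config N) (k : ℕ) : Config N := fun i => if i.val < k then y i else x i

omit [NeZero N] in
lemma hyb_succ (x y : Config N) (k : ℕ) (hk : k < N) :
    hyb x y (k + 1) = hyb x y k ∨ hyb x y (k + 1) = flipAt (hyb x y k) ⟨k, hk⟩ := by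
  by_cases hxy : x ⟨k, hk⟩ = y ⟨k, hk⟩
  · left
    funext i
    unfold hyb
    by_cases h1 : i.val < k
    · simp [h1, Nat.lt_succ_of_lt h1]
    · by_cases h2 : i.val = k
      · have : i = ⟨k, hk⟩ := Fin.ext h2
        subst this
        simp [hxy]
      · have h3 : ¬ i.val < k + 1 := by omega
        simp [h1, h3]
  · right
    funext i
    unfold hyb flipAt
    by_cases h2 : i = ⟨k, hk⟩
    · subst h2
      simp only [Nat.lt_succ_self, if_true, Function.update_self, lt_irrefl, if_false]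
      revert hxy
      generalize x ⟨k, hk⟩ = a
      generalize y ⟨k, hk⟩ = b
      revert a b
      decide
    · rw [Function.update_of_ne h2]
      have h3 : i.val ≠ k := fun h => h2 (Fin.ext h)
      by_cases h1 : i.val < k
      · simp [h1, Nat.lt_succ_of_lt h1]
      · have h4 : ¬ i.val < k + 1 := by omega
        simp [h1, h4]

lemma pow_nonneg' (hp : ∀ m, p m ∈ Set.Ioo (0 : ℝ) 1) (k : ℕ) (x y : Config N) :
    0 ≤ (P N p ^ k) x y := by
  induction k generalizing y with
  | zero =>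
    simp only [pow_zero, Matrix.one_apply]
    split_ifs <;> norm_num
  | succ k ih =>
    rw [pow_succ, Matrix.mul_apply]
    exact Finset.sum_nonneg fun z _ => mul_nonneg (ih z) (P_nonneg hp z y)

lemma pow_hyb_pos (hp : ∀ m, p m ∈ Set.Ioo (0 : ℝ) 1) (x y : Config N) (k : ℕ) (hk : k ≤ N) :
    0 < (P N p ^ k) x (hyb x y k) := by
  induction k with
  | zero =>
    have : hyb x y 0 = x := by funext i; simp [hyb]
    simp [this]
  | succ k ih =>
    have ih' := ih (by omega)
    have hk' : k < N := by omega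
    rw [pow_succ, Matrix.mul_apply]
    have hstep : 0 < P N p (hyb x y k) (hyb x y (k + 1)) := by
      rcases hyb_succ x y k hk' with h | h
      · rw [h]; exact P_self_pos hp _
      · rw [h]; exact P_flip_pos hp _ _
    apply Finset.sum_pos'
    · intro z _
      exact mul_nonneg (pow_nonneg' hp k x z) (P_nonneg hp z _)
    · exact ⟨hyb x y k, Finset.mem_univ _, mul_pos ih' hstep⟩

lemma pow_N_pos (hp : ∀ m, p m ∈ Set.Ioo (0 : ℝ) 1) (x y : Config N) :
    0 < (P N p ^ N) x y := by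
  have h := pow_hyb_pos hp x y N le_rfl
  have : hyb x y N = y := by funext i; simp [hyb, i.isLt]
  rwa [this] at h

lemma pow_row_sum (k : ℕ) (x : Config N) : ∑ y, (P N p ^ k) x y = 1 := by
  induction k with
  | zero => simp [Matrix.one_apply]
  | succ k ih =>
    simp_rw [pow_succ, Matrix.mul_apply]
    rw [Finset.sum_comm]
    simp_rw [← Finset.mul_sum, P_row_sum, mul_one]
    exact ih

/-- The `ℓ¹` norm. -/
noncomputable def nrm (v : Config N → ℝ) : ℝ := ∑ x, |v x|

omit [NeZero N] in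
lemma nrm_vecMul_le (M : Matrix (Config N) (Config N) ℝ) (hM : ∀ x y, 0 ≤ M x y)
    (hr : ∀ x, ∑ y, M x y = 1) (v : Config N → ℝ) : nrm (v ᵥ* M) ≤ nrm v := by
  unfold nrm
  calc ∑ y, |(v ᵥ* M) y| ≤ ∑ y, ∑ x, |v x| * M x y := by
        apply Finset.sum_le_sum
        intro y _
        have : (v ᵥ* M) y = ∑ x, v x * M x y := by simp [Matrix.vecMul, dotProduct]
        rw [this]
        refine (Finset.abs_sum_le_sum_abs _ _).trans (le_of_eq ?_)
        apply Finset.sum_congr rfl
        intro x _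
        rw [abs_mul, abs_of_nonneg (hM x y)]
    _ = ∑ x, |v x| := by
        rw [Finset.sum_comm]
        simp_rw [← Finset.mul_sum, hr, mul_one]

omit [NeZero N] in
lemma sum_vecMul (M : Matrix (Config N) (Config N) ℝ)
    (hr : ∀ x, ∑ y, M x y = 1) (v : Config N → ℝ) : ∑ y, (v ᵥ* M) y = ∑ x, v x := by
  have : ∀ y, (v ᵥ* M) y = ∑ x, v x * M x y := by
    intro y; simp [Matrix.vecMul, dotProduct]
  simp_rw [this]
  rw [Finset.sum_comm]
  simp_rw [← Finset.mul_sum, hr, mul_one]

omit [NeZero N] in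
lemma nrm_contract (M : Matrix (Config N) (Config N) ℝ) (δ : ℝ) (hM : ∀ x y, δ ≤ M x y)
    (hr : ∀ x, ∑ y, M x y = 1) (v : Config N → ℝ) (hv : ∑ x, v x = 0) :
    nrm (v ᵥ* M) ≤ (1 - Fintype.card (Config N) * δ) * nrm v := by
  unfold nrm
  calc ∑ y, |(v ᵥ* M) y| ≤ ∑ y, ∑ x, |v x| * (M x y - δ) := by
        apply Finset.sum_le_sum
        intro y _
        have : (v ᵥ* M) y = ∑ x, v x * (M x y - δ) := by
          simp only [Matrix.vecMul, dotProduct, mul_sub, Finset.sum_sub_distrib]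
          rw [← Finset.sum_mul, hv]
          simp
        rw [this]
        refine (Finset.abs_sum_le_sum_abs _ _).trans (le_of_eq ?_)
        apply Finset.sum_congr rfl
        intro x _
        rw [abs_mul, abs_of_nonneg (sub_nonneg.mpr (hM x y))]
    _ = (1 - Fintype.card (Config N) * δ) * ∑ x, |v x| := by
        rw [Finset.sum_comm]
        simp_rw [← Finset.mul_sum, Finset.sum_sub_distrib, hr]
        rw [← Finset.sum_mul]
        simp
        ring

lemma exists_delta (hp : ∀ m, p m ∈ Set.Ioo (0 : ℝ) 1) :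
    ∃ δ : ℝ, 0 < δ ∧ ∀ x y : Config N, δ ≤ (P N p ^ N) x y := by
  obtain ⟨a, _, ha⟩ := Finset.exists_min_image (Finset.univ : Finset (Config N × Config N))
    (fun a => (P N p ^ N) a.1 a.2) ⟨(fun _ => 0, fun _ => 0), Finset.mem_univ _⟩
  exact ⟨(P N p ^ N) a.1 a.2, pow_N_pos hp _ _, fun x y => ha (x, y) (Finset.mem_univ _)⟩

omit [NeZero N] in
lemma nrm_nonneg (v : Config N → ℝ) : 0 ≤ nrm v := Finset.sum_nonneg fun _ _ => abs_nonneg _

lemma tendsto_zero (hp : ∀ m, p m ∈ Set.Ioo (0 : ℝ) 1) (v : Config N → ℝ)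
    (hv : ∑ x, v x = 0) : Tendsto (fun n : ℕ => nrm (v ᵥ* (P N p) ^ n)) atTop (𝓝 0) := by
  obtain ⟨δ, hδ, hM⟩ := exists_delta (N := N) hp
  set S : ℝ := (Fintype.card (Config N) : ℝ) with hS
  have hSpos : 0 < S := by
    rw [hS]; exact_mod_cast Fintype.card_pos
  set r : ℝ := 1 - S * δ with hr
  have hr1 : r < 1 := by
    rw [hr]; have := mul_pos hSpos hδ; linarith
  have hr0 : 0 ≤ r := by
    -- S δ ≤ row sum = 1
    have h1 : ∑ _y : Config N, δ ≤ ∑ y, (P N p ^ N) (fun _ => 0) y :=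
      Finset.sum_le_sum fun y _ => hM _ y
    rw [pow_row_sum] at h1
    simp only [Finset.sum_const, nsmul_eq_mul, Finset.card_univ] at h1
    rw [hr, hS]; linarith
  have hblock : ∀ k : ℕ, nrm (v ᵥ* (P N p) ^ (N * k)) ≤ r ^ k * nrm v := by
    intro k
    induction k with
    | zero => simp
    | succ k ih =>
      have h1 : v ᵥ* (P N p) ^ (N * (k + 1)) = (v ᵥ* (P N p) ^ (N * k)) ᵥ* (P N p) ^ N := by
        rw [Matrix.vecMul_vecMul, ← pow_add]
        congr 2
      rw [h1]
      have h2 : ∑ x, (v ᵥ* (P N p) ^ (N * k)) x = 0 := by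
        rw [sum_vecMul _ (fun x => pow_row_sum _ x), hv]
      refine (nrm_contract _ δ hM (fun x => pow_row_sum _ x) _ h2).trans ?_
      rw [pow_succ, mul_comm (r ^ k) r, mul_assoc]
      exact mul_le_mul_of_nonneg_left ih hr0
  have hall : ∀ n : ℕ, nrm (v ᵥ* (P N p) ^ n) ≤ r ^ (n / N) * nrm v := by
    intro n
    have h1 : v ᵥ* (P N p) ^ n = (v ᵥ* (P N p) ^ (N * (n / N))) ᵥ* (P N p) ^ (n % N) := by
      rw [Matrix.vecMul_vecMul, ← pow_add, Nat.div_add_mod]
    rw [h1]
    exact (nrm_vecMul_le _ (fun x y => pow_nonneg' hp _ x y) (fun x => pow_row_sum _ x) _).trans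
      (hblock _)
  have hlim : Tendsto (fun n : ℕ => r ^ (n / N) * nrm v) atTop (𝓝 (0 * nrm v)) := by
    apply Tendsto.mul_const
    exact (tendsto_pow_atTop_nhds_zero_of_lt_one hr0 hr1).comp
      (Nat.tendsto_div_const_atTop (NeZero.ne N))
  rw [zero_mul] at hlim
  exact squeeze_zero (fun n => nrm_nonneg _) hall hlim

lemma vecMul_pow_of_stationary {π : Config N → ℝ} (h : π ᵥ* P N p = π) (n : ℕ) :
    π ᵥ* (P N p) ^ n = π := by
  induction n with
  | zero => simp
  | succ n ih => rw [pow_succ, ← Matrix.vecMul_vecMul, ih, h]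

lemma ergodic_of_stationary (hp : ∀ m, p m ∈ Set.Ioo (0 : ℝ) 1) {π : Config N → ℝ}
    (hπ : IsStationary N p π) :
    (∀ π', IsStationary N p π' → π' = π) ∧
    ∀ ν : Config N → ℝ, IsDist ν → Tendsto (fun n : ℕ => ν ᵥ* (P N p) ^ n) atTop (𝓝 π) := by
  have key : ∀ ν : Config N → ℝ, IsDist ν →
      Tendsto (fun n : ℕ => ν ᵥ* (P N p) ^ n) atTop (𝓝 π) := by
    intro ν hν
    rw [tendsto_pi_nhds]
    intro x
    have hv : ∑ x, (ν - π) x = 0 := by
      simp [Finset.sum_sub_distrib, hν.2, hπ.1.2]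
    have h0 := tendsto_zero hp (ν - π) hv
    rw [tendsto_iff_dist_tendsto_zero]
    refine squeeze_zero (fun _ => dist_nonneg) (fun n => ?_) h0
    rw [Real.dist_eq]
    have h1 : (ν ᵥ* (P N p) ^ n) x - π x = ((ν - π) ᵥ* (P N p) ^ n) x := by
      rw [Matrix.sub_vecMul, vecMul_pow_of_stationary hπ.2]
      simp
    rw [h1]
    unfold nrm
    exact Finset.single_le_sum (f := fun x => |((ν - π) ᵥ* (P N p) ^ n) x|)
      (fun _ _ => abs_nonneg _) (Finset.mem_univ x)
  refine ⟨?_, key⟩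
  intro π' hπ'
  have h1 := key π' hπ'.1
  simp_rw [vecMul_pow_of_stationary hπ'.2] at h1
  exact tendsto_nhds_unique tendsto_const_nhds h1

lemma isErgodic_of_stationary (hp : ∀ m, p m ∈ Set.Ioo (0 : ℝ) 1) {π : Config N → ℝ}
    (hπ : IsStationary N p π) : IsErgodic N p :=
  ⟨π, hπ, ergodic_of_stationary hp hπ⟩

lemma mu_eq (hp : ∀ m, p m ∈ Set.Ioo (0 : ℝ) 1) {π : Config N → ℝ}
    (hπ : IsStationary N p π) : mu N p = profit N p π := by
  unfold mu
  have h : ∃ π, IsStationary N p π := ⟨π, hπ⟩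
  rw [dif_pos h, (ergodic_of_stationary hp hπ).1 _ h.choose_spec]

end ergodic

/-! ### The two parameter vectors for `N = 4` -/

section four

/-- Integer weights on the 16 configurations of `N = 4`, given by the number of ones and, if there
are two ones, by whether they are adjacent (`w 2`) or opposite (`w 3`). -/
def wt (w : Fin 6 → ℤ) (x : Config 4) : ℤ :=
  if (∑ i, (x i).val) = 0 then w 0
  else if (∑ i, (x i).val) = 1 then w 1
  else if (∑ i, (x i).val) = 2 then (if x 0 = x 2 then w 3 else w 2)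
  else if (∑ i, (x i).val) = 3 then w 4
  else w 5

/-- Integer version of the flip probabilities, multiplied by `20`. -/
def flipInt (a : Fin 4 → ℤ) (x : Config 4) (i : Fin 4) : ℤ :=
  if x i = 0 then a (nb x i) else 20 - a (nb x i)

lemma flipProb_eq (a : Fin 4 → ℤ) (x : Config 4) (i : Fin 4) :
    flipProb (fun m => (a m : ℝ) / 20) x i = (flipInt a x i : ℝ) / 20 := by
  unfold flipProb flipInt
  split_ifs
  · rfl
  · push_cast
    ring

lemma stationary_of_int (a : Fin 4 → ℤ) (w : Fin 6 → ℤ) (L : ℤ) (hL : 0 < L)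
    (hw : ∀ x, 0 ≤ wt w x) (hsum : ∑ x, wt w x = L)
    (hbal : ∀ y, wt w y * ∑ i, flipInt a y i =
      ∑ i, wt w (flipAt y i) * flipInt a (flipAt y i) i) :
    IsStationary 4 (fun m => (a m : ℝ) / 20) (fun x => (wt w x : ℝ) / L) := by
  have hL' : (0 : ℝ) < (L : ℝ) := by exact_mod_cast hL
  refine ⟨⟨fun x => ?_, ?_⟩, ?_⟩
  · exact div_nonneg (by exact_mod_cast hw x) hL'.le
  · rw [← Finset.sum_div, ← Int.cast_sum, hsum, div_self hL'.ne']
  · apply vecMul_eq_of_balance
    intro y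
    simp_rw [flipProb_eq]
    have h := congrArg (fun z : ℤ => (z : ℝ)) (hbal y)
    push_cast at h
    have e1 : (wt w y : ℝ) / L * ∑ i, (flipInt a y i : ℝ) / 20 =
        ((wt w y : ℝ) * ∑ i, (flipInt a y i : ℝ)) / (L * 20) := by
      rw [← Finset.sum_div]
      field_simp
    have e2 : ∑ i, (wt w (flipAt y i) : ℝ) / L * ((flipInt a (flipAt y i) i : ℝ) / 20) =
        (∑ i, (wt w (flipAt y i) : ℝ) * (flipInt a (flipAt y i) i : ℝ)) / (L * 20) := by
      rw [Finset.sum_div]
      apply Finset.sum_congr rfl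
      intro i _
      field_simp
    rw [e1, e2, h]

lemma profit_of_int (a : Fin 4 → ℤ) (w : Fin 6 → ℤ) (L T : ℤ) (hL : 0 < L)
    (hT : ∑ x, wt w x * ∑ i, (2 * a (nb x i) - 20) = T) :
    profit 4 (fun m => (a m : ℝ) / 20) (fun x => (wt w x : ℝ) / L) = (T : ℝ) / (80 * L) := by
  have hL' : (0 : ℝ) < (L : ℝ) := by exact_mod_cast hL
  unfold profit
  rw [← hT]
  push_cast
  rw [Finset.mul_sum, Finset.sum_div]
  apply Finset.sum_congr rfl
  intro x _
  have : ∑ i, ((a (nb x i) : ℝ) / 20 - (1 - (a (nb x i) : ℝ) / 20)) =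
      (∑ i, (2 * (a (nb x i) : ℝ) - 20)) / 20 := by
    rw [Finset.sum_div]
    apply Finset.sum_congr rfl
    intro i _
    ring
  rw [this]
  field_simp
  ring

/-- Parameters `(13/20, 19/20, 19/20, 1/20)`, multiplied by `20`. -/
def a₁ : Fin 4 → ℤ := ![13, 19, 19, 1]

/-- Parameters `(19/20, 19/20, 19/20, 1/20)`, multiplied by `20`. -/
def a₂ : Fin 4 → ℤ := ![19, 19, 19, 1]

/-- Unnormalised stationary weights for `a₁`. -/
def w₁ : Fin 6 → ℤ := ![29659, 55081, 58539, 384579, 124241, 6539]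

/-- Unnormalised stationary weights for `a₂`. -/
def w₂ : Fin 6 → ℤ := ![16, 304, 361, 16606, 1444, 76]

lemma stat₁ : IsStationary 4 (fun m => (a₁ m : ℝ) / 20) (fun x => (wt w₁ x : ℝ) / (1756800 : ℤ)) :=
  stationary_of_int a₁ w₁ 1756800 (by norm_num) (by decide +kernel) (by decide +kernel)
    (by decide +kernel)

lemma stat₂ : IsStationary 4 (fun m => (a₂ m : ℝ) / 20) (fun x => (wt w₂ x : ℝ) / (41740 : ℤ)) :=
  stationary_of_int a₂ w₂ 41740 (by norm_num) (by decide +kernel) (by decide +kernel)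
    (by decide +kernel)

lemma prof₁ : profit 4 (fun m => (a₁ m : ℝ) / 20) (fun x => (wt w₁ x : ℝ) / (1756800 : ℤ)) =
    4 / 61 := by
  rw [profit_of_int a₁ w₁ 1756800 9216000 (by norm_num) (by decide +kernel)]
  norm_num

lemma prof₂ : profit 4 (fun m => (a₂ m : ℝ) / 20) (fun x => (wt w₂ x : ℝ) / (41740 : ℤ)) =
    117 / 2087 := by
  rw [profit_of_int a₂ w₂ 41740 187200 (by norm_num) (by decide +kernel)]
  norm_num

lemma interior₁ : ∀ m, (fun m => (a₁ m : ℝ) / 20) m ∈ Set.Ioo (0 : ℝ) 1 := by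
  intro m
  fin_cases m <;> simp [a₁] <;> norm_num

lemma interior₂ : ∀ m, (fun m => (a₂ m : ℝ) / 20) m ∈ Set.Ioo (0 : ℝ) 1 := by
  intro m
  fin_cases m <;> simp [a₂] <;> norm_num

end four

/-- **The mean profit is not monotone.** For `N = 4` players there are two parameter vectors
`p, p'` with all entries in the open interval `(0,1)`, for both of which the chain is ergodic, that
agree except that `p_0 < p'_0`, and such that `μ^4(p') < μ^4(p)`. -/
theorem result : ∃ p p' : Fin 4 → ℝ,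
    (∀ m, p m ∈ Set.Ioo (0 : ℝ) 1) ∧ (∀ m, p' m ∈ Set.Ioo (0 : ℝ) 1) ∧
    IsErgodic 4 p ∧ IsErgodic 4 p' ∧
    (∀ m, m ≠ 0 → p m = p' m) ∧ p 0 < p' 0 ∧ mu 4 p' < mu 4 p := by
  refine ⟨fun m => (a₁ m : ℝ) / 20, fun m => (a₂ m : ℝ) / 20, interior₁, interior₂,
    isErgodic_of_stationary interior₁ stat₁, isErgodic_of_stationary interior₂ stat₂, ?_, ?_, ?_⟩
  · intro m hm
    fin_cases m
    · exact absurd rfl hm
    all_goals simp [a₁, a₂]
  · simp [a₁, a₂]
    norm_num
  · rw [mu_eq interior₁ stat₁, mu_eq interior₂ stat₂, prof₁, prof₂]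
    norm_num

end Pool.Agent.Results.MP_313e16_pr.NotMonotone
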